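import Mathlib

set_option autoImplicit false

namespace Pool.Agent.Helper867.Reid

/-- The free abelian group of countable rank. -/
abbrev F : Type := ℕ →₀ ℤ

/-- The product of countably many copies of `F`. -/
abbrev D : Type := ℕ → F

/-- One step of the recursion in `growth`. -/
noncomputable def step (τ : ℕ → ((ℕ → ℤ) →+ ℤ)) (n : ℕ) (s : (ℕ → ℤ) × ℤ) : (ℕ → ℤ) × ℤ :=
  let v' : ℕ → ℤ := if (n : ℤ) ≤ |τ n s.1| then s.1 else s.1 + Pi.single n (2 * n * s.2)
  (v', s.2 * (|τ n v'| + n + 1))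

noncomputable def st (τ : ℕ → ((ℕ → ℤ) →+ ℤ)) : ℕ → (ℕ → ℤ) × ℤ
  | 0 => (0, 1)
  | n + 1 => step τ n (st τ n)

section growth
variable (τ : ℕ → ((ℕ → ℤ) →+ ℤ))

theorem st_pos (n : ℕ) : 1 ≤ (st τ n).2 := by
  induction n with
  | zero => simp [st]
  | succ n ih =>
    simp only [st, step]
    have h : (0:ℤ) ≤ |τ n (if (n : ℤ) ≤ |τ n (st τ n).1| then (st τ n).1
      else (st τ n).1 + Pi.single n (2 * n * (st τ n).2))| := abs_nonneg _
    nlinarith

theorem st_dvd_succ (n : ℕ) : (st τ n).2 ∣ (st τ (n+1)).2 := by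
  simp only [st, step]
  exact Dvd.intro _ rfl

theorem st_dvd {m n : ℕ} (h : m ≤ n) : (st τ m).2 ∣ (st τ n).2 := by
  induction n, h using Nat.le_induction with
  | base => exact dvd_rfl
  | succ n _ ih => exact ih.trans (st_dvd_succ τ n)

theorem st_succ_apply_ne (n j : ℕ) (h : j ≠ n) : (st τ (n+1)).1 j = (st τ n).1 j := by
  simp only [st, step]
  split_ifs
  · rfl
  · simp [Pi.single_eq_of_ne h]

theorem st_zero_apply (n j : ℕ) (h : n ≤ j) : (st τ n).1 j = 0 := by
  induction n with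
  | zero => simp [st]
  | succ n ih =>
    rw [st_succ_apply_ne τ n j (by omega)]
    exact ih (by omega)

theorem st_dvd_apply (n : ℕ) : (st τ n).2 ∣ (st τ (n+1)).1 n := by
  have h0 := st_zero_apply τ n n le_rfl
  simp only [st, step]
  split_ifs
  · rw [h0]; exact dvd_zero _
  · simp [h0]

theorem st_apply_of_lt {n j : ℕ} (h : j < n) : (st τ n).1 j = (st τ (j+1)).1 j := by
  induction n, h using Nat.le_induction with
  | base => rfl
  | succ n hn ih =>
    rw [st_succ_apply_ne τ n j (by omega)]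
    exact ih

theorem st_big (hτ : ∀ n, τ n (Pi.single n 1) ≠ 0) (n : ℕ) :
    (n : ℤ) ≤ |τ n (st τ (n+1)).1| := by
  simp only [st, step]
  split_ifs with h
  · exact h
  · push Not at h
    have hsmul : (Pi.single n (2 * (n:ℤ) * (st τ n).2) : ℕ → ℤ)
        = (2 * (n:ℤ) * (st τ n).2) • (Pi.single n 1 : ℕ → ℤ) := by
      funext j
      by_cases hj : j = n
      · subst hj; simp
      · simp [hj]
    rw [hsmul, map_add, map_zsmul]
    have h1 : 1 ≤ |τ n (Pi.single n 1)| := Int.one_le_abs (hτ n)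
    have h2 := st_pos τ n
    have h3 : |(2 * (n:ℤ) * (st τ n).2) • τ n (Pi.single n 1)|
        = 2 * (n:ℤ) * (st τ n).2 * |τ n (Pi.single n 1)| := by
      rw [smul_eq_mul, abs_mul, abs_of_nonneg (by positivity)]
    have h4 : 2 * (n:ℤ) ≤ 2 * (n:ℤ) * (st τ n).2 * |τ n (Pi.single n 1)| := by
      have h5 : 1 ≤ (st τ n).2 * |τ n (Pi.single n 1)| := one_le_mul_of_one_le_of_one_le h2 h1
      have h6 : (0:ℤ) ≤ 2 * n := by positivity
      calc 2 * (n:ℤ) = 2 * n * 1 := by ring
        _ ≤ 2 * n * ((st τ n).2 * |τ n (Pi.single n 1)|) := mul_le_mul_of_nonneg_left h5 h6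
        _ = _ := by ring
    have h7 := abs_sub_abs_le_abs_sub ((2 * (n:ℤ) * (st τ n).2) • τ n (Pi.single n 1))
      (-(τ n (st τ n).1))
    rw [abs_neg, sub_neg_eq_add, add_comm _ (τ n (st τ n).1), h3] at h7
    linarith

theorem st_mod (n : ℕ) : |τ n (st τ (n+1)).1| + n + 1 ≤ (st τ (n+1)).2 := by
  have h1 := st_pos τ n
  have h2 : (st τ (n+1)).2 = (st τ n).2 * (|τ n (st τ (n+1)).1| + n + 1) := by
    simp only [st, step]
  rw [h2]
  have h3 : (0:ℤ) ≤ |τ n (st τ (n+1)).1| + n + 1 := by positivity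
  nlinarith

/-- Baer, Specker: there is a sequence on which all the given functionals grow. -/
theorem growth (hτ : ∀ n, τ n (Pi.single n 1) ≠ 0) :
    ∃ c : ℕ → ℤ, ∀ n : ℕ, (n : ℤ) ≤ |τ n c| := by
  refine ⟨fun j => (st τ (j+1)).1 j, fun n => ?_⟩
  set c : ℕ → ℤ := fun j => (st τ (j+1)).1 j with hc
  have hd : ∀ j, ∃ d : ℤ, c j - (st τ (n+1)).1 j = (st τ (n+1)).2 * d := by
    intro j
    rcases Nat.lt_or_ge j (n+1) with h | h
    · refine ⟨0, ?_⟩
      rw [hc]; simp only
      rw [st_apply_of_lt τ h]; ring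
    · have h1 : (st τ (n+1)).2 ∣ c j := (st_dvd τ h).trans (st_dvd_apply τ j)
      obtain ⟨d, hd⟩ := h1
      refine ⟨d, ?_⟩
      rw [st_zero_apply τ (n+1) j h, hd]; ring
  choose d hd using hd
  have hcd : c = (st τ (n+1)).1 + (st τ (n+1)).2 • d := by
    funext j
    simp only [Pi.add_apply, Pi.smul_apply, smul_eq_mul]
    linarith [hd j]
  have h1 : τ n c = τ n (st τ (n+1)).1 + (st τ (n+1)).2 * τ n d := by
    rw [hcd, map_add, map_zsmul, smul_eq_mul]
  have h2 := st_big τ hτ n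
  have h3 := st_mod τ n
  rw [h1]
  by_cases ht : τ n d = 0
  · rw [ht, mul_zero, add_zero]; exact h2
  · have h4 : 1 ≤ |τ n d| := Int.one_le_abs ht
    have h5 : |(st τ (n+1)).2 * τ n d| = (st τ (n+1)).2 * |τ n d| := by
      rw [abs_mul, abs_of_nonneg (by linarith [st_pos τ (n+1)])]
    have h6 : (st τ (n+1)).2 ≤ (st τ (n+1)).2 * |τ n d| := by
      have := st_pos τ (n+1)
      nlinarith
    have h7 := abs_sub_abs_le_abs_sub ((st τ (n+1)).2 * τ n d) (-(τ n (st τ (n+1)).1))
    rw [abs_neg, sub_neg_eq_add, add_comm _ (τ n (st τ (n+1)).1), h5] at h7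
    linarith

end growth

section sig
variable {I : Type} {H : I → Type} [∀ i, AddCommGroup (H i)]

/-- Infinite linear combinations of a pointwise finite sequence in a product. -/
def sig (code : I → ℕ) (x : ℕ → ∀ i, H i) : (ℕ → ℤ) →+ ∀ i, H i where
  toFun c i := ∑ l ∈ Finset.range (code i + 1), c l • x l i
  map_zero' := by funext i; simp
  map_add' a b := by
    funext i
    simp [add_smul, Finset.sum_add_distrib]

theorem sig_single (code : I → ℕ) (x : ℕ → ∀ i, H i)
    (hx : ∀ l i, code i < l → x l i = 0) (n : ℕ) :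
    sig code x (Pi.single n 1) = x n := by
  funext i
  show ∑ l ∈ Finset.range (code i + 1), (Pi.single n (1:ℤ) : ℕ → ℤ) l • x l i = x n i
  by_cases h : n < code i + 1
  · rw [Finset.sum_eq_single n]
    · simp
    · intro b _ hb
      simp [Pi.single_eq_of_ne hb]
    · intro hn
      exact absurd (Finset.mem_range.2 h) hn
  · rw [hx n i (by omega)]
    apply Finset.sum_eq_zero
    intro l hl
    have : l ≠ n := by
      rintro rfl
      exact h (Finset.mem_range.1 hl)
    simp [Pi.single_eq_of_ne this]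

theorem finsupp_bdd (y : F) : ∃ M : ℕ, ∀ k, |y k| < M := by
  refine ⟨(∑ k ∈ y.support, (y k).natAbs) + 1, fun k => ?_⟩
  by_cases hk : k ∈ y.support
  · have := Finset.single_le_sum (f := fun k => (y k).natAbs) (fun i _ => Nat.zero_le _) hk
    rw [Int.abs_eq_natAbs]
    exact_mod_cast Nat.lt_succ_of_le this
  · rw [Finsupp.notMem_support_iff.1 hk]
    simp
    positivity

/-- `F` is slender. -/
theorem slender (code : I → ℕ) (χ : (∀ i, H i) →+ F) :
    ∃ N, ∀ x : ∀ i, H i, (∀ i, code i < N → x i = 0) → χ x = 0 := by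
  by_contra hcon
  push Not at hcon
  choose x hx hχ using hcon
  have hk : ∀ n, ∃ k, χ (x n) k ≠ 0 := fun n => by
    by_contra h
    push Not at h
    exact hχ n (Finsupp.ext h)
  choose k hk using hk
  obtain ⟨c, hc⟩ := growth (fun n => (Finsupp.applyAddHom (k n)).comp (χ.comp (sig code x)))
    (fun n => by
      simp only [AddMonoidHom.comp_apply, Finsupp.applyAddHom_apply]
      rw [sig_single code x (fun l i h => hx l i h)]
      exact hk n)
  obtain ⟨M, hM⟩ := finsupp_bdd (χ (sig code x c))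
  have h1 := hc M
  have h2 := hM (k M)
  simp only [AddMonoidHom.comp_apply, Finsupp.applyAddHom_apply] at h1
  linarith

end sig

end Pool.Agent.Helper867.Reid
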