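import Pool.Agent.Helper867.Reid.Cls

set_option autoImplicit false

namespace Pool.Agent.Helper867.Reid

section pi
open Classical
variable {I : Type} {H : I → Type} [∀ i, AddCommGroup (H i)]

theorem pi_sum (hE : Emb (∀ i, H i)) (χ : (∀ i, H i) →+ F) :
    ∃ S : Finset I, ∀ x : ∀ i, H i, χ x = ∑ i ∈ S, χ (Pi.single i (x i)) := by
  obtain ⟨θ, hθ⟩ := hE
  have hc := countable_of_emb θ hθ
  obtain ⟨code, hcode⟩ := Set.countable_iff_exists_injOn.1 hc
  obtain ⟨N, hN⟩ := slender code χ
  have hfin : {i | (∃ g : H i, g ≠ 0) ∧ code i < N}.Finite := by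
    apply Set.Finite.of_finite_image (f := code)
    · apply (Set.finite_lt_nat N).subset
      rintro _ ⟨i, hi, rfl⟩
      exact hi.2
    · intro i hi j hj hij
      exact hcode hi.1 hj.1 hij
  refine ⟨hfin.toFinset, fun x => ?_⟩
  have h1 : χ (x - ∑ i ∈ hfin.toFinset, Pi.single i (x i)) = 0 := by
    apply hN
    intro i hi
    simp only [Pi.sub_apply, Finset.sum_apply]
    by_cases hx : x i = 0
    · rw [hx, Finset.sum_eq_zero, sub_zero]
      intro j _
      by_cases hij : i = j
      · subst hij; simp [hx]
      · exact Pi.single_eq_of_ne hij _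
    · have hmem : i ∈ hfin.toFinset := by
        simp only [Set.Finite.mem_toFinset, Set.mem_ofPred_eq]
        exact ⟨⟨x i, hx⟩, hi⟩
      rw [Finset.sum_eq_single i]
      · simp
      · intro j _ hj
        exact Pi.single_eq_of_ne (Ne.symm hj) _
      · intro h; exact absurd hmem h
  rw [map_sub, map_sum, sub_eq_zero] at h1
  exact h1

theorem dvd_sum_of {S : Finset I} {p : ℤ} {X : Type} (P : X → Prop) (f : I → X → F)
    (h : ∀ i ∈ S, ∃ N : ℕ, ∀ x, P x → ∀ k ≥ N, p ∣ f i x k) :
    ∃ N : ℕ, ∀ x, P x → ∀ k ≥ N, p ∣ (∑ i ∈ S, f i x) k := by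
  choose! N hN using h
  refine ⟨S.sup N, fun x hx k hk => ?_⟩
  rw [Finsupp.finsetSum_apply]
  apply Finset.dvd_sum
  intro i hi
  exact hN i hi x hx k ((Finset.le_sup hi).trans hk)

theorem good_pi (h : ∀ i, Good (H i)) : Good (∀ i, H i) := by
  refine ⟨?_, ?_, fun hE => ?_⟩
  · intro g hg
    obtain ⟨i, hi⟩ : ∃ i, g i ≠ 0 := by
      by_contra hcon
      push Not at hcon
      exact hg (funext hcon)
    obtain ⟨θ, hθ⟩ := (h i).1 (g i) hi
    exact ⟨θ.comp (Pi.evalAddMonoidHom H i), hθ⟩
  · by_cases hz : ∀ i, ∀ g : H i, g = 0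
    · left
      intro g
      funext i
      exact hz i _
    · right
      push Not at hz
      obtain ⟨i, g, hg⟩ := hz
      rcases (h i).2.1 with h0 | ⟨a, b, hab⟩
      · exact absurd (h0 g) hg
      · exact ⟨Pi.single i a, b.comp (Pi.evalAddMonoidHom H i), by simpa using hab⟩
  · have hEi : ∀ i, Emb (H i) := fun i =>
      hE.of_inj (AddMonoidHom.single H i) (Pi.single_injective i)
    have hev : ∀ i, ∀ x : H i, Pi.evalAddMonoidHom H i (AddMonoidHom.single H i x) = x := by
      intro i x; simp
    refine ⟨?_, fun hQ => ?_⟩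
    · by_cases hF : ∃ i, Fs (H i)
      · left
        obtain ⟨i, hi⟩ := hF
        exact hi.of_retract (AddMonoidHom.single H i) (Pi.evalAddMonoidHom H i) (hev i)
      · right
        push Not at hF
        intro χ
        obtain ⟨S, hS⟩ := pi_sum hE χ
        obtain ⟨N, hN⟩ := dvd_sum_of (S := S) (p := 3) (fun _ : (∀ i, H i) => True)
          (fun i x => χ (Pi.single i (x i))) (fun i _ => by
            have hK : K (H i) 3 := ((h i).2.2 (hEi i)).1.resolve_left (hF i)
            obtain ⟨N, hN⟩ := hK (χ.comp (AddMonoidHom.single H i))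
            exact ⟨N, fun x _ k hk => hN (x i) k hk⟩)
        refine ⟨N, fun g k hk => ?_⟩
        rw [hS g]
        exact hN g trivial k hk
    · -- only finitely many factors have `F` as a summand
      have hfin : {i | Fs (H i)}.Finite := by
        by_contra hinf
        have hinf' : Set.Infinite {i | Fs (H i)} := hinf
        let e := hinf'.natEmbedding
        let code : I → ℕ := fun i => if h : ∃ l, (e l).1 = i then h.choose else 0
        have hcode : ∀ l, code (e l).1 = l := by
          intro l
          have h : ∃ l', (e l').1 = (e l).1 := ⟨l, rfl⟩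
          have h2 : code (e l).1 = h.choose := by simp only [code]; rw [dif_pos h]
          rw [h2]
          exact e.injective (Subtype.ext h.choose_spec)
        let a' : ∀ i, F →+ H i := fun i => if h : Fs (H i) then h.choose else 0
        let φ : D →+ (∀ i, H i) :=
          AddMonoidHom.pi (fun i => (a' i).comp (Pi.evalAddMonoidHom (fun _ : ℕ => F) (code i)))
        obtain ⟨m, hm⟩ := hQ φ
        have hFm : Fs (H (e m).1) := (e m).2
        have ha' : a' (e m).1 = hFm.choose := by simp only [a']; rw [dif_pos hFm]
        obtain ⟨b, hb⟩ := hFm.choose_spec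
        obtain ⟨N, hN⟩ := hm (b.comp (Pi.evalAddMonoidHom H (e m).1))
        have h1 := hN (Pi.single m (Finsupp.single N 1)) (fun j hj => Pi.single_eq_of_ne hj.ne _)
          N le_rfl
        have h2 : (b.comp (Pi.evalAddMonoidHom H (e m).1)) (φ (Pi.single m (Finsupp.single N 1)))
            = Finsupp.single N 1 := by
          show b (a' (e m).1 ((Pi.single m (Finsupp.single N 1) : ℕ → F) (code (e m).1))) = _
          rw [ha', hcode, Pi.single_eq_same, hb]
        rw [h2, Finsupp.single_eq_same] at h1
        norm_num at h1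
      have hQ3 : ∀ i, Q (H i) 3 := fun i =>
        ((h i).2.2 (hEi i)).2 (hQ.of_retract (AddMonoidHom.single H i) (Pi.evalAddMonoidHom H i)
          (hev i))
      intro φ
      choose m hm using fun i => hQ3 i ((Pi.evalAddMonoidHom H i).comp φ)
      refine ⟨hfin.toFinset.sup m, fun χ => ?_⟩
      obtain ⟨S, hS⟩ := pi_sum hE χ
      obtain ⟨N, hN⟩ := dvd_sum_of (S := S) (p := 3)
        (fun x : D => ∀ j < hfin.toFinset.sup m, x j = 0)
        (fun i x => χ (Pi.single i (φ x i))) (fun i _ => by
          by_cases hi : Fs (H i)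
          · obtain ⟨N, hN⟩ := hm i (χ.comp (AddMonoidHom.single H i))
            refine ⟨N, fun x hx k hk => hN x (fun j hj => hx j (hj.trans_le ?_)) k hk⟩
            exact Finset.le_sup (f := m) (by simpa using hi)
          · have hK : K (H i) 3 := ((h i).2.2 (hEi i)).1.resolve_left hi
            obtain ⟨N, hN⟩ := hK (χ.comp (AddMonoidHom.single H i))
            exact ⟨N, fun x _ k hk => hN (φ x i) k hk⟩)
      refine ⟨N, fun x hx k hk => ?_⟩
      rw [hS (φ x)]
      exact hN x hx k hk

end pi

section ds
open Classical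
variable {I : Type} {H : I → Type} [∀ i, AddCommGroup (H i)]

/-- Evaluation at a coordinate. -/
def ev (i : I) : DirectSum I H →+ H i := DFinsupp.evalAddMonoidHom i

theorem ev_of (i : I) (x : H i) : ev i (DirectSum.of H i x) = x := DirectSum.of_eq_same i x

theorem ds_sum (g : DirectSum I H) (S : Finset I) (hS : ∀ i ∉ S, ev i g = 0) :
    g = ∑ i ∈ S, DirectSum.of H i (ev i g) := by
  apply DFinsupp.ext
  intro i
  have h1 : (∑ j ∈ S, DirectSum.of H j (ev j g)) i = ∑ j ∈ S, (DirectSum.of H j (ev j g)) i :=
    DFinsupp.finsetSum_apply _ _ _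
  show g i = (∑ j ∈ S, DirectSum.of H j (ev j g)) i
  rw [h1]
  by_cases hi : i ∈ S
  · rw [Finset.sum_eq_single i]
    · rw [DirectSum.of_eq_same]; rfl
    · intro j _ hj
      exact DirectSum.of_eq_of_ne _ _ _ (Ne.symm hj)
    · intro h; exact absurd hi h
  · rw [Finset.sum_eq_zero]
    · exact hS i hi
    · intro j hj
      exact DirectSum.of_eq_of_ne _ _ _ (fun h => hi (h ▸ hj))

theorem ev_finite (g : DirectSum I H) : {i | ev i g ≠ 0}.Finite := by
  apply (DFinsupp.support g).finite_toSet.subset
  intro i hi
  exact DFinsupp.mem_support_iff.2 hi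

/-- Chase: a homomorphism from `D` to a direct sum of torsionless groups maps a tail of `D`
to a finite subsum. -/
theorem chase (hT : ∀ i, Tless (H i)) (φ : D →+ DirectSum I H) :
    ∃ m : ℕ, ∃ S : Finset I, ∀ x : D, (∀ j < m, x j = 0) → ∀ i ∉ S, ev i (φ x) = 0 := by
  by_contra hcon
  push Not at hcon
  obtain ⟨f, hf1, hf2⟩ := exists_seq_of_forall_finset_exists
    (α := ℕ × I × D)
    (fun t => (∀ j < t.1, t.2.2 j = 0) ∧ ev t.2.1 (φ t.2.2) ≠ 0)
    (fun t t' => t.1 < t'.1 ∧ t.2.1 ≠ t'.2.1)
    (fun s _ => by
      obtain ⟨x, hx, i, hi, hne⟩ := hcon (s.sup (fun t => t.1) + 1) (s.image (fun t => t.2.1))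
      refine ⟨(s.sup (fun t => t.1) + 1, i, x), ⟨hx, hne⟩, fun t ht => ⟨?_, ?_⟩⟩
      · have := Finset.le_sup (f := fun t : ℕ × I × D => t.1) ht
        simp only at this ⊢
        omega
      · rintro rfl
        exact hi (Finset.mem_image_of_mem _ ht))
  have hmono : StrictMono (fun n => (f n).1) := fun a b hab => (hf2 a b hab).1
  have hge : ∀ n, n ≤ (f n).1 := hmono.id_le
  have hinj : Function.Injective (fun n => (f n).2.1) := by
    intro a b hab
    rcases lt_trichotomy a b with h | h | h
    · exact absurd hab (hf2 a b h).2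
    · exact h
    · exact absurd hab.symm (hf2 b a h).2
  have hθ : ∀ n, ∃ θ : H (f n).2.1 →+ ℤ, θ (ev (f n).2.1 (φ (f n).2.2)) ≠ 0 :=
    fun n => hT _ _ (hf1 n).2
  choose θ hθ using hθ
  obtain ⟨c, hc⟩ := growth
    (fun n => (θ n).comp ((ev (f n).2.1).comp (φ.comp (sig (H := fun _ => F) id
      (fun n => (f n).2.2)))))
    (fun n => by
      simp only [AddMonoidHom.comp_apply]
      rw [sig_single id (fun n => (f n).2.2)]
      · exact hθ n
      · intro l i hil
        exact (hf1 l).1 i (lt_of_lt_of_le hil (hge l)))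
  simp only [AddMonoidHom.comp_apply] at hc
  set g := φ (sig (H := fun _ => F) id (fun n => (f n).2.2) c) with hg
  have hfin := ev_finite g
  have hinf : Set.Infinite {i | ev i g ≠ 0} := by
    apply Set.infinite_of_injective_forall_mem
      (f := fun n => (f (n+1)).2.1) (fun a b hab => by simpa using hinj hab)
    intro n
    show ev (f (n+1)).2.1 g ≠ 0
    intro h0
    have h1 := hc (n+1)
    rw [h0, map_zero, abs_zero] at h1
    push_cast at h1
    linarith
  exact hinf hfin

theorem good_ds (h : ∀ i, Good (H i)) : Good (DirectSum I H) := by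
  have hof : ∀ i, Function.Injective (DirectSum.of H i) := fun i => DirectSum.of_injective i
  refine ⟨?_, ?_, fun hE => ?_⟩
  · intro g hg
    obtain ⟨i, hi⟩ : ∃ i, ev i g ≠ 0 := by
      by_contra hcon
      push Not at hcon
      exact hg (DFinsupp.ext hcon)
    obtain ⟨θ, hθ⟩ := (h i).1 (ev i g) hi
    exact ⟨θ.comp (ev i), hθ⟩
  · by_cases hz : ∀ i, ∀ g : H i, g = 0
    · left
      intro g
      exact DFinsupp.ext (fun i => hz i _)
    · right
      push Not at hz
      obtain ⟨i, g, hg⟩ := hz
      rcases (h i).2.1 with h0 | ⟨a, b, hab⟩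
      · exact absurd (h0 g) hg
      · exact ⟨DirectSum.of H i a, b.comp (ev i), by simpa [ev_of] using hab⟩
  · have hEi : ∀ i, Emb (H i) := fun i => hE.of_inj (DirectSum.of H i) (hof i)
    refine ⟨?_, fun hQ => ?_⟩
    · by_cases hF : ∃ i, Fs (H i)
      · left
        obtain ⟨i, hi⟩ := hF
        exact hi.of_retract (DirectSum.of H i) (ev i) (ev_of i)
      · push Not at hF
        by_cases hfin : {i | ∃ g : H i, g ≠ 0}.Finite
        · right
          intro χ
          obtain ⟨N, hN⟩ := dvd_sum_of (S := hfin.toFinset) (p := 3)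
            (fun _ : DirectSum I H => True)
            (fun i x => χ (DirectSum.of H i (ev i x))) (fun i _ => by
              have hK : K (H i) 3 := ((h i).2.2 (hEi i)).1.resolve_left (hF i)
              obtain ⟨N, hN⟩ := hK (χ.comp (DirectSum.of H i))
              exact ⟨N, fun x _ k hk => hN (ev i x) k hk⟩)
          refine ⟨N, fun g k hk => ?_⟩
          have hg : χ g = ∑ i ∈ hfin.toFinset, χ (DirectSum.of H i (ev i g)) := by
            rw [← map_sum]
            congr 1
            apply ds_sum
            intro i hi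
            by_contra hne
            apply hi
            simp only [Set.Finite.mem_toFinset, Set.mem_ofPred_eq]
            exact ⟨_, hne⟩
          rw [hg]
          exact hN g trivial k hk
        · left
          have hinf' : Set.Infinite {i | ∃ g : H i, g ≠ 0} := hfin
          let e := hinf'.natEmbedding
          let code : I → ℕ := fun i => if h : ∃ l, (e l).1 = i then h.choose else 0
          have hcode : ∀ l, code (e l).1 = l := by
            intro l
            have h : ∃ l', (e l').1 = (e l).1 := ⟨l, rfl⟩
            have h2 : code (e l).1 = h.choose := by simp only [code]; rw [dif_pos h]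
            rw [h2]
            exact e.injective (Subtype.ext h.choose_spec)
          have hZ : ∀ l, ∃ a : H (e l).1, ∃ b : H (e l).1 →+ ℤ, b a = 1 := by
            intro l
            obtain ⟨g, hg⟩ := (e l).2
            rcases (h (e l).1).2.1 with h0 | h0
            · exact absurd (h0 g) hg
            · exact h0
          let b' : ∀ i, H i →+ ℤ := fun i =>
            if h : ∃ a : H i, ∃ b : H i →+ ℤ, b a = 1 then h.choose_spec.choose else 0
          let a' : ∀ i, H i := fun i =>
            if h : ∃ a : H i, ∃ b : H i →+ ℤ, b a = 1 then h.choose else 0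
          have hab : ∀ l, b' (e l).1 (a' (e l).1) = 1 := by
            intro l
            have h1 : b' (e l).1 = (hZ l).choose_spec.choose := by
              simp only [b']; rw [dif_pos (hZ l)]
            have h2 : a' (e l).1 = (hZ l).choose := by
              simp only [a']; rw [dif_pos (hZ l)]
            rw [h1, h2]
            exact (hZ l).choose_spec.choose_spec
          refine ⟨Finsupp.liftAddHom (fun n => (DirectSum.of H (e n).1).comp
              (zmultiplesHom _ (a' (e n).1))),
            DirectSum.toAddMonoid (fun i => (Finsupp.singleAddHom (code i)).comp (b' i)), ?_⟩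
          intro x
          induction x using Finsupp.induction_linear with
          | zero => simp
          | add x y hx hy => rw [map_add, map_add, hx, hy]
          | single n c =>
            rw [Finsupp.liftAddHom_apply_single]
            simp only [AddMonoidHom.comp_apply, zmultiplesHom_apply, map_zsmul,
              DirectSum.toAddMonoid_of, Finsupp.singleAddHom_apply, hab, hcode]
            simp
    · have hQ3 : ∀ i, Q (H i) 3 := fun i =>
        ((h i).2.2 (hEi i)).2 (hQ.of_retract (DirectSum.of H i) (ev i) (ev_of i))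
      intro φ
      obtain ⟨m₀, S, hS⟩ := chase (fun i => (h i).1) φ
      choose m hm using fun i => hQ3 i ((ev i).comp φ)
      refine ⟨max m₀ (S.sup m), fun χ => ?_⟩
      obtain ⟨N, hN⟩ := dvd_sum_of (S := S) (p := 3)
        (fun x : D => ∀ j < max m₀ (S.sup m), x j = 0)
        (fun i x => χ (DirectSum.of H i (ev i (φ x)))) (fun i hi => by
          obtain ⟨N, hN⟩ := hm i (χ.comp (DirectSum.of H i))
          refine ⟨N, fun x hx k hk => hN x (fun j hj => hx j (hj.trans_le ?_)) k hk⟩
          exact (Finset.le_sup (f := m) hi).trans (le_max_right _ _))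
      refine ⟨N, fun x hx k hk => ?_⟩
      have hg : χ (φ x) = ∑ i ∈ S, χ (DirectSum.of H i (ev i (φ x))) := by
        rw [← map_sum]
        congr 1
        apply ds_sum
        exact hS x (fun j hj => hx j (hj.trans_le (le_max_left _ _)))
      rw [hg]
      exact hN x hx k hk

end ds

end Pool.Agent.Helper867.Reid
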