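import Pool.Agent.Helper867.Reid.Basic

set_option autoImplicit false

namespace Pool.Agent.Helper867.Reid

open Classical in
/-- In a product of groups with countably many separating functionals only countably many
factors are nonzero. -/
theorem countable_of_emb {I : Type} {H : I → Type} [∀ i, AddCommGroup (H i)]
    (θ : ℕ → ((∀ i, H i) →+ ℤ)) (hθ : ∀ g, (∀ n, θ n g = 0) → g = 0) :
    {i | ∃ g : H i, g ≠ 0}.Countable := by
  have hfin : ∀ n, {i | ∃ g : H i, θ n (Pi.single i g) ≠ 0}.Finite := by
    intro n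
    by_contra hinf
    have hinf' : Set.Infinite {i | ∃ g : H i, θ n (Pi.single i g) ≠ 0} := hinf
    let e := hinf'.natEmbedding
    have he : ∀ l, ∃ g : H (e l).1, θ n (Pi.single (e l).1 g) ≠ 0 := fun l => (e l).2
    choose g hg using he
    -- code function: the index of `i` in the sequence if it occurs, `0` otherwise
    let code : I → ℕ := fun i => if h : ∃ l, (e l).1 = i then h.choose else 0
    have hcode : ∀ l, code (e l).1 = l := by
      intro l
      have h : ∃ l', (e l').1 = (e l).1 := ⟨l, rfl⟩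
      have h2 : code (e l).1 = h.choose := by simp only [code]; rw [dif_pos h]
      rw [h2]
      exact e.injective (Subtype.ext h.choose_spec)
    obtain ⟨c, hc⟩ := growth (fun _ => (θ n).comp (sig code (fun l => Pi.single (e l).1 (g l))))
      (fun l => by
        simp only [AddMonoidHom.comp_apply]
        rw [sig_single code (fun l => Pi.single (e l).1 (g l))]
        · exact hg l
        · intro l i hl
          by_cases hi : i = (e l).1
          · subst hi
            rw [hcode] at hl
            exact absurd hl (lt_irrefl _)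
          · exact Pi.single_eq_of_ne hi _)
    have h1 := hc (((θ n).comp (sig code (fun l => Pi.single (e l).1 (g l))) c).natAbs + 1)
    rw [Int.abs_eq_natAbs] at h1
    push_cast at h1
    linarith
  have hsub : {i | ∃ g : H i, g ≠ 0} ⊆ ⋃ n, {i | ∃ g : H i, θ n (Pi.single i g) ≠ 0} := by
    rintro i ⟨g, hg⟩
    by_contra hcon
    simp only [Set.mem_iUnion, Set.mem_ofPred_eq, not_exists, not_not] at hcon
    have h1 := hθ (Pi.single i g) (fun n => hcon n g)
    apply hg
    have h2 := congrFun h1 i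
    simpa using h2
  exact (Set.countable_iUnion fun n => (hfin n).countable).mono hsub

section defs
variable (G : Type) [AddCommGroup G]

/-- Homomorphisms to the integers separate points. -/
def Tless : Prop := ∀ g : G, g ≠ 0 → ∃ θ : G →+ ℤ, θ g ≠ 0

/-- The group is zero or has an infinite cyclic summand. -/
def Zs : Prop := (∀ g : G, g = 0) ∨ ∃ a : G, ∃ b : G →+ ℤ, b a = 1

/-- Countably many homomorphisms to the integers separate points. -/
def Emb : Prop := ∃ θ : ℕ → (G →+ ℤ), ∀ g, (∀ n, θ n g = 0) → g = 0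

/-- `F` is a direct summand. -/
def Fs : Prop := ∃ a : F →+ G, ∃ b : G →+ F, ∀ x, b (a x) = x

/-- Each homomorphism to `F` has finite image modulo `p`. -/
def K (p : ℤ) : Prop := ∀ χ : G →+ F, ∃ N : ℕ, ∀ g, ∀ i ≥ N, p ∣ χ g i

/-- For each `φ` from `D` there is a tail of `D` on which each `χ ∘ φ` has finite image mod `p`. -/
def Q (p : ℤ) : Prop := ∀ φ : D →+ G, ∃ m : ℕ, ∀ χ : G →+ F, ∃ N : ℕ,
  ∀ x : D, (∀ j < m, x j = 0) → ∀ i ≥ N, p ∣ χ (φ x) i

/-- The property shared by all groups in the Reid class. -/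
def Good : Prop := Tless G ∧ Zs G ∧ (Emb G → (Fs G ∨ K G 3) ∧ (Q G 2 → Q G 3))

end defs

section retract
variable {G H : Type} [AddCommGroup G] [AddCommGroup H]

theorem Emb.of_inj (i : H →+ G) (hi : Function.Injective i) (h : Emb G) : Emb H := by
  obtain ⟨θ, hθ⟩ := h
  refine ⟨fun n => (θ n).comp i, fun g hg => ?_⟩
  apply hi
  rw [map_zero]
  exact hθ _ hg

theorem Q.of_retract {p : ℤ} (i : H →+ G) (r : G →+ H) (hr : ∀ x, r (i x) = x) (h : Q G p) :
    Q H p := by
  intro φ
  obtain ⟨m, hm⟩ := h (i.comp φ)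
  refine ⟨m, fun χ => ?_⟩
  obtain ⟨N, hN⟩ := hm (χ.comp r)
  refine ⟨N, fun x hx k hk => ?_⟩
  have := hN x hx k hk
  simpa [hr] using this

theorem Fs.of_retract (i : H →+ G) (r : G →+ H) (hr : ∀ x, r (i x) = x) (h : Fs H) : Fs G := by
  obtain ⟨a, b, hab⟩ := h
  refine ⟨i.comp a, b.comp r, fun x => ?_⟩
  simp [hr, hab]

theorem Good.of_equiv (e : G ≃+ H) (h : Good G) : Good H := by
  obtain ⟨h1, h2, h3⟩ := h
  refine ⟨?_, ?_, ?_⟩
  · intro g hg
    obtain ⟨θ, hθ⟩ := h1 (e.symm g) (by simpa using hg)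
    exact ⟨θ.comp e.symm.toAddMonoidHom, by simpa using hθ⟩
  · rcases h2 with h2 | ⟨a, b, hab⟩
    · left
      intro g
      have := h2 (e.symm g)
      simpa using this
    · right
      exact ⟨e a, b.comp e.symm.toAddMonoidHom, by simpa using hab⟩
  · intro hE
    obtain ⟨h4, h5⟩ := h3 (hE.of_inj e.toAddMonoidHom e.injective)
    refine ⟨?_, ?_⟩
    · rcases h4 with h4 | h4
      · left
        exact h4.of_retract e.toAddMonoidHom e.symm.toAddMonoidHom (by simp)
      · right
        intro χ
        obtain ⟨N, hN⟩ := h4 (χ.comp e.toAddMonoidHom)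
        refine ⟨N, fun g k hk => ?_⟩
        have := hN (e.symm g) k hk
        simpa using this
    · intro hQ
      have hQ' : Q G 2 := hQ.of_retract e.toAddMonoidHom e.symm.toAddMonoidHom (by simp)
      exact (h5 hQ').of_retract e.symm.toAddMonoidHom e.toAddMonoidHom (by simp)

theorem K.toQ {p : ℤ} (h : K G p) : Q G p := by
  intro φ
  refine ⟨0, fun χ => ?_⟩
  obtain ⟨N, hN⟩ := h χ
  exact ⟨N, fun x _ k hk => hN (φ x) k hk⟩

end retract

theorem good_int : Good ℤ := by
  have hK : K ℤ 3 := by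
    intro χ
    obtain ⟨N, hN⟩ : ∃ N : ℕ, ∀ i ≥ N, χ 1 i = 0 := by
      refine ⟨(χ 1).support.sup id + 1, fun i hi => ?_⟩
      by_contra h
      have := Finset.le_sup (f := id) (Finsupp.mem_support_iff.2 h)
      simp only [id] at this
      omega
    refine ⟨N, fun g i hi => ?_⟩
    have h1 : χ g = g • χ 1 := by
      rw [← map_zsmul]; simp
    rw [h1, Finsupp.smul_apply, hN i hi]
    simp
  refine ⟨?_, ?_, fun _ => ⟨Or.inr hK, fun _ => hK.toQ⟩⟩
  · intro g hg
    exact ⟨AddMonoidHom.id ℤ, hg⟩
  · right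
    exact ⟨1, AddMonoidHom.id ℤ, rfl⟩

end Pool.Agent.Helper867.Reid
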