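import Pool.Agent.Helper867.Reid.Closure

set_option autoImplicit false

namespace Pool.Agent.Helper867.Reid

noncomputable section

/-- Coordinatewise multiplication. -/
def mulw (w : ℕ → ℤ) : F →+ F where
  toFun y := Finsupp.onFinset y.support (fun i => w i * y i) (by
    intro i hi
    rw [Finsupp.mem_support_iff]
    intro h
    exact hi (by rw [h, mul_zero]))
  map_zero' := by ext i; simp
  map_add' a b := by ext i; simp [mul_add]

theorem mulw_apply (w : ℕ → ℤ) (y : F) (i : ℕ) : mulw w y i = w i * y i := rfl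

/-- The weights. -/
def w (i a : ℕ) : ℤ := 2 ^ (2 ^ (i - a) - 1)

def q (i a : ℕ) : ℤ := if a < i then 2 else 1

theorem w_eq (i a : ℕ) : w i a = q i a * (w i (a + 1) * w i (a + 1)) := by
  unfold w q
  split_ifs with h
  · obtain ⟨n, hn⟩ : ∃ n, i - a = n + 1 := ⟨i - a - 1, by omega⟩
    have hn' : i - (a + 1) = n := by omega
    rw [hn, hn', ← pow_add, ← pow_succ']
    congr 1
    have : 1 ≤ 2 ^ n := Nat.one_le_two_pow
    rw [pow_succ]
    omega
  · have h1 : i - a = 0 := by omega
    have h2 : i - (a + 1) = 0 := by omega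
    rw [h1, h2]
    norm_num

theorem two_dvd_w (i a : ℕ) (h : a < i) : (2 : ℤ) ∣ w i a := by
  unfold w
  apply dvd_pow_self
  have : 2 ^ 1 ≤ 2 ^ (i - a) := Nat.pow_le_pow_right (by norm_num) (by omega)
  omega

theorem three_not_dvd_w (i a : ℕ) : ¬ (3 : ℤ) ∣ w i a := by
  unfold w
  intro h
  have h1 := Int.Prime.dvd_pow' (n := 2) (p := 3) (by norm_num) h
  norm_num at h1

/-- The basic injection of `D` into itself. -/
def J : D →+ D := AddMonoidHom.pi (fun k : ℕ =>
  (mulw (fun i => w i k.unpair.2)).comp (Pi.evalAddMonoidHom (fun _ : ℕ => F) k.unpair.1))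

theorem J_apply (x : D) (k i : ℕ) : J x k i = w i k.unpair.2 * x k.unpair.1 i := rfl

/-- The partial inverse. -/
def g : D →+ D := AddMonoidHom.pi (fun k : ℕ =>
  (mulw (fun i => q i k.unpair.2)).comp (Pi.evalAddMonoidHom (fun _ : ℕ => F)
    (Nat.pair (Nat.pair k.unpair.1 (k.unpair.2 + 1)) (k.unpair.2 + 1))))

theorem g_apply (x : D) (k i : ℕ) : g x k i = q i k.unpair.2 *
    x (Nat.pair (Nat.pair k.unpair.1 (k.unpair.2 + 1)) (k.unpair.2 + 1)) i := rfl

theorem gJJ (x : D) : g (J (J x)) = J x := by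
  funext k
  ext i
  rw [g_apply, J_apply, J_apply, J_apply]
  simp only [Nat.unpair_pair]
  rw [w_eq i k.unpair.2]
  ring

/-- Iterates of `g`. -/
def gp : ℕ → (D →+ D)
  | 0 => AddMonoidHom.id D
  | n + 1 => (gp n).comp g

theorem gp_zero (x : D) : gp 0 x = x := rfl
theorem gp_succ (n : ℕ) (x : D) : gp (n + 1) x = gp n (g x) := rfl

/-- Iterates of `J`. -/
def Jp : ℕ → (D →+ D)
  | 0 => AddMonoidHom.id D
  | n + 1 => J.comp (Jp n)

/-- The direct sum of countably many copies of `D`. -/
abbrev S : Type := DirectSum ℕ (fun _ : ℕ => D)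

def io (n : ℕ) : D →+ S := DirectSum.of (fun _ : ℕ => D) n

def del : S →+ S := DirectSum.toAddMonoid (fun n => io n - (io (n + 1)).comp J)

theorem del_io (n : ℕ) (x : D) : del (io n x) = io n x - io (n + 1) (J x) := by
  unfold del io
  rw [DirectSum.toAddMonoid_of]
  rfl

def r : S →+ S := DirectSum.toAddMonoid (fun n =>
  io n - ∑ k ∈ Finset.range n, (io (k + 1)).comp ((gp (n - k)).comp J))

theorem r_io (n : ℕ) (x : D) :
    r (io n x) = io n x - ∑ k ∈ Finset.range n, io (k + 1) (gp (n - k) (J x)) := by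
  unfold r
  conv_lhs => unfold io
  rw [DirectSum.toAddMonoid_of, AddMonoidHom.sub_apply, AddMonoidHom.finsetSum_apply]
  rfl

theorem hom_ext {G : Type} [AddCommGroup G] (f f' : S →+ G) (h : ∀ n x, f (io n x) = f' (io n x)) :
    f = f' := DirectSum.addHom_ext h

theorem r_del (z : S) : r (del z) = z := by
  have h : r.comp del = AddMonoidHom.id S := by
    apply hom_ext
    intro n x
    rw [AddMonoidHom.comp_apply, del_io, map_sub, r_io, r_io, AddMonoidHom.id_apply,
      Finset.sum_range_succ]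
    have h1 : ∀ k ∈ Finset.range n, io (k + 1) (gp (n + 1 - k) (J (J x)))
        = io (k + 1) (gp (n - k) (J x)) := by
      intro k hk
      have hk' := Finset.mem_range.1 hk
      have h2 : n + 1 - k = (n - k) + 1 := by omega
      rw [h2, gp_succ, gJJ]
    rw [Finset.sum_congr rfl h1]
    have h3 : n + 1 - n = 0 + 1 := by omega
    rw [h3, gp_succ, gJJ, gp_zero]
    abel
  exact DFunLike.congr_fun h z

/-- The exotic summand. -/
abbrev A : Type := r.ker

/-- The projection to the exotic summand. -/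
def pr : S →+ A := (AddMonoidHom.id S - del.comp r).codRestrict r.ker (fun z => by
  rw [AddMonoidHom.mem_ker]
  simp only [AddMonoidHom.sub_apply, AddMonoidHom.id_apply, AddMonoidHom.comp_apply, map_sub]
  rw [r_del, sub_self])

theorem pr_coe (z : S) : (pr z : S) = z - del (r z) := rfl

theorem pr_del (z : S) : pr (del z) = 0 := by
  apply Subtype.ext
  rw [pr_coe, r_del, sub_self]
  rfl

theorem pr_A (a : A) : pr (a : S) = a := by
  apply Subtype.ext
  rw [pr_coe]
  have h : r (a : S) = 0 := a.2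
  rw [h, map_zero, sub_zero]

theorem r_A (a : A) : r (a : S) = 0 := a.2

/-- The direct sum of copies of `D` is the sum of `A` and a copy of itself. -/
def eqv : S ≃+ A × S where
  toFun z := (pr z, r z)
  invFun p := (p.1 : S) + del p.2
  left_inv z := by
    simp only [pr_coe]
    abel
  right_inv p := by
    apply Prod.ext
    · simp only [map_add, pr_A, pr_del, add_zero]
    · simp only [map_add, r_A, r_del, zero_add]
  map_add' a b := by
    simp only [map_add]
    rfl

theorem pr_io_succ (n : ℕ) (x : D) : pr (io (n + 1) (J x)) = pr (io n x) := by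
  have h := pr_del (io n x)
  rw [del_io, map_sub, sub_eq_zero] at h
  exact h.symm

theorem pr_io_add (n k : ℕ) (x : D) : pr (io (n + k) (Jp k x)) = pr (io n x) := by
  induction k with
  | zero => rfl
  | succ k ih =>
    rw [← ih]
    exact pr_io_succ (n + k) (Jp k x)

/-- Elements with bounded support are represented at a single level. -/
theorem exists_rep (a : A) (T : Finset ℕ) (hT : ∀ i ∉ T, ev i (a : S) = 0) (N : ℕ)
    (hN : ∀ i ∈ T, i ≤ N) : ∃ y : D, a = pr (io N y) := by
  refine ⟨∑ i ∈ T, Jp (N - i) (ev i (a : S)), ?_⟩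
  have h1 : (a : S) = ∑ i ∈ T, io i (ev i (a : S)) := by
    unfold io
    convert ds_sum (a : S) T hT
    rfl
  calc a = pr (a : S) := (pr_A a).symm
    _ = pr (∑ i ∈ T, io i (ev i (a : S))) := by rw [← h1]
    _ = ∑ i ∈ T, pr (io i (ev i (a : S))) := map_sum _ _ _
    _ = ∑ i ∈ T, pr (io N (Jp (N - i) (ev i (a : S)))) := by
        apply Finset.sum_congr rfl
        intro i hi
        have h2 := pr_io_add i (N - i) (ev i (a : S))
        rw [show i + (N - i) = N from Nat.add_sub_of_le (hN i hi)] at h2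
        exact h2.symm
    _ = pr (io N (∑ i ∈ T, Jp (N - i) (ev i (a : S)))) := by
        rw [map_sum, map_sum]

/-- Homomorphisms from `F` to `F`, precomposed with multiplication by weights which are even
from some point on, have finite image modulo `2`. -/
theorem small_mulw (v : ℕ → ℤ) (a : ℕ) (hv : ∀ i, a < i → (2 : ℤ) ∣ v i) (ψ : F →+ F) :
    ∃ N : ℕ, ∀ y : F, ∀ k ≥ N, (2 : ℤ) ∣ ψ (mulw v y) k := by
  have h1 : ∀ i : ℕ, ∃ N : ℕ, ∀ k ≥ N, ψ (Finsupp.single i 1) k = 0 := by
    intro i
    refine ⟨(ψ (Finsupp.single i 1)).support.sup id + 1, fun k hk => ?_⟩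
    by_contra h
    have := Finset.le_sup (f := id) (Finsupp.mem_support_iff.2 h)
    simp only [id] at this
    omega
  choose N hN using h1
  refine ⟨(Finset.range (a + 1)).sup N, fun y k hk => ?_⟩
  have h2 : mulw v y = ∑ i ∈ y.support, (v i * y i) • (Finsupp.single i (1:ℤ) : F) := by
    ext j
    rw [mulw_apply, Finsupp.finsetSum_apply]
    by_cases hj : j ∈ y.support
    · rw [Finset.sum_eq_single j]
      · simp
      · intro b _ hb
        simp [hb]
      · intro h; exact absurd hj h
    · rw [Finset.sum_eq_zero, Finsupp.notMem_support_iff.1 hj, mul_zero]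
      intro b hb
      have hbj : b ≠ j := fun h => hj (h ▸ hb)
      simp [hbj]
  rw [h2, map_sum, Finsupp.finsetSum_apply]
  apply Finset.dvd_sum
  intro i _
  rw [map_zsmul, Finsupp.smul_apply, smul_eq_mul]
  rcases Nat.lt_or_ge a i with h | h
  · exact Dvd.dvd.mul_right (Dvd.dvd.mul_right (hv i h) _) _
  · rw [hN i k ((Finset.le_sup (f := N) (Finset.mem_range.2 (by omega))).trans hk), mul_zero]
    exact dvd_zero _

open Classical in
theorem small_J (ω : D →+ F) : ∃ N : ℕ, ∀ y : D, ∀ k ≥ N, (2 : ℤ) ∣ ω (J y) k := by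
  obtain ⟨M, hM⟩ := slender (I := ℕ) (H := fun _ => F) id ω
  obtain ⟨N, hN⟩ := dvd_sum_of (S := Finset.range M) (p := 2) (fun _ : D => True)
    (fun i y => ω (Pi.single i (J y i))) (fun i _ => by
      obtain ⟨N, hN⟩ := small_mulw (fun j => w j i.unpair.2) i.unpair.2
        (fun j hj => two_dvd_w j _ hj) (ω.comp (AddMonoidHom.single (fun _ : ℕ => F) i))
      exact ⟨N, fun y _ k hk => hN (y i.unpair.1) k hk⟩)
  refine ⟨N, fun y k hk => ?_⟩
  have h1 : ω (J y - ∑ i ∈ Finset.range M, Pi.single i (J y i)) = 0 := by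
    apply hM
    intro i hi
    have hi' : i ∈ Finset.range M := Finset.mem_range.2 hi
    simp only [Pi.sub_apply, Finset.sum_apply]
    rw [Finset.sum_eq_single i]
    · simp
    · intro j _ hj
      exact Pi.single_eq_of_ne (Ne.symm hj) _
    · intro h; exact absurd hi' h
  rw [map_sub, map_sum, sub_eq_zero] at h1
  rw [h1]
  exact hN y trivial k hk

theorem tless_D : Tless D := by
  intro x hx
  obtain ⟨k, hk⟩ : ∃ k, x k ≠ 0 := by
    by_contra hcon
    push Not at hcon
    exact hx (funext hcon)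
  obtain ⟨i, hi⟩ : ∃ i, x k i ≠ 0 := by
    by_contra hcon
    push Not at hcon
    exact hk (Finsupp.ext hcon)
  exact ⟨(Finsupp.applyAddHom i).comp (Pi.evalAddMonoidHom (fun _ : ℕ => F) k), hi⟩

theorem Q_A : Q A 2 := by
  intro φ
  obtain ⟨m, T, hT⟩ := chase (I := ℕ) (H := fun _ => D) (fun _ => tless_D)
    (r.ker.subtype.comp φ)
  refine ⟨m, fun χ => ?_⟩
  obtain ⟨N, hN⟩ := small_J (χ.comp (pr.comp (io (T.sup id + 1))))
  refine ⟨N, fun x hx k hk => ?_⟩
  obtain ⟨y, hy⟩ := exists_rep (φ x) T (hT x hx) (T.sup id)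
    (fun i hi => Finset.le_sup (f := id) hi)
  rw [hy, ← pr_io_succ]
  exact hN y k hk

theorem not_Q_A : ¬ Q A 3 := by
  intro hQ
  obtain ⟨m, hm⟩ := hQ (pr.comp (io 0))
  let h0 : S →+ D := DirectSum.toAddMonoid (fun n => (gp n).comp J)
  have h0io : ∀ n x, h0 (io n x) = gp n (J x) := by
    intro n x
    simp only [h0, io]
    rw [DirectSum.toAddMonoid_of]
    rfl
  have h0del : ∀ z, h0 (del z) = 0 := by
    intro z
    have h : h0.comp del = 0 := by
      apply hom_ext
      intro n x
      rw [AddMonoidHom.comp_apply, del_io, map_sub, h0io, h0io, gp_succ, gJJ, sub_self]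
      rfl
    exact DFunLike.congr_fun h z
  obtain ⟨N, hN⟩ := hm ((Pi.evalAddMonoidHom (fun _ : ℕ => F) (Nat.pair m 0)).comp
    (h0.comp r.ker.subtype))
  have h1 := hN (Pi.single m (Finsupp.single N 1)) (fun j hj => Pi.single_eq_of_ne hj.ne _)
    N le_rfl
  have h2 : ((Pi.evalAddMonoidHom (fun _ : ℕ => F) (Nat.pair m 0)).comp
    (h0.comp r.ker.subtype)) ((pr.comp (io 0)) (Pi.single m (Finsupp.single N 1))) N
      = w N 0 := by
    have h3 : h0 ((pr (io 0 (Pi.single m (Finsupp.single N 1))) : A) : S)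
        = J (Pi.single m (Finsupp.single N 1)) := by
      rw [pr_coe, map_sub, h0del, sub_zero, h0io, gp_zero]
    show h0 ((pr (io 0 (Pi.single m (Finsupp.single N 1))) : A) : S) (Nat.pair m 0) N = w N 0
    rw [h3, J_apply]
    simp
  rw [h2] at h1
  exact three_not_dvd_w N 0 h1

theorem emb_A : Emb A := by
  refine ⟨fun t => (Finsupp.applyAddHom t.unpair.2.unpair.2).comp
    ((Pi.evalAddMonoidHom (fun _ : ℕ => F) t.unpair.2.unpair.1).comp
      ((ev (H := fun _ : ℕ => D) t.unpair.1).comp r.ker.subtype)), fun a ha => ?_⟩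
  apply Subtype.ext
  apply DFinsupp.ext
  intro n
  funext k
  ext i
  have h := ha (Nat.pair n (Nat.pair k i))
  simp only [Nat.unpair_pair, AddMonoidHom.comp_apply] at h
  exact h

theorem not_good_A : ¬ Good A := fun h => not_Q_A ((h.2.2 emb_A).2 Q_A)

end

end Pool.Agent.Helper867.Reid
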